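import Pool.Agent.N728.QU.DefG

set_option autoImplicit false

/-! # QV/LSUM: the sum of `1 / log (f(m) - f(h) + c)` over `m` in `[1, M]`, `c` fixed -/

namespace Pool.Agent.N67.QV

open Finset Pool.Agent.N728.QU

noncomputable section

theorem Vg_fac (a b c : ℤ) (h m : ℕ) :
    ((Vg a b 1 c h m : ℤ) : ℝ) = ((m : ℝ) - h) * ((a : ℝ) * ((m : ℝ) + h) + b) + c := by
  unfold Vg; push_cast; ring

theorem inv_log_le_two (v : ℤ) (hv : 2 ≤ v) : 0 ≤ 1 / Real.log ((v : ℤ) : ℝ) ∧ 1 / Real.log ((v : ℤ) : ℝ) ≤ 2 := by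
  have h2 : (2 : ℝ) ≤ (v : ℝ) := by exact_mod_cast hv
  have hl : Real.log 2 ≤ Real.log (v : ℝ) := Real.log_le_log (by norm_num) h2
  have h3 : (0.6931471803 : ℝ) < Real.log 2 := Real.log_two_gt_d9
  have h4 : (1 / 2 : ℝ) ≤ Real.log (v : ℝ) := by linarith
  have h5 : (0 : ℝ) < Real.log (v : ℝ) := by linarith
  refine ⟨by positivity, ?_⟩
  rw [div_le_iff₀ h5]; linarith

theorem pt (a b c : ℤ) (ha : 1 ≤ a) (δ d B : ℝ) (hδ : 0 < δ) (hd : 0 < d) (K U D H : ℕ) (h m : ℕ) (hH : 3 ≤ H)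
    (h1 : |(b : ℝ)| + |(c : ℝ)| + 1 ≤ δ * H) (h2 : |(c : ℝ)| ≤ d * δ / 2 * (H : ℝ) ^ 2)
    (hU : 1 + |(c : ℝ)| ≤ δ * U) (hD : d * H ≤ D) (hh1 : δ * H ≤ h) (hh2 : h ≤ H) (hm : m ≤ K * H)
    (hB : |Real.log ((a : ℝ) * K ^ 2 + |(b : ℝ)| * K + |(b : ℝ)| + |(c : ℝ)| + 1)| +
      |Real.log (d * δ / 2)| ≤ B) :
    |(if 2 ≤ Vg a b 1 c h m then 1 / Real.log ((Vg a b 1 c h m : ℤ) : ℝ) else 0) -
      (if h < m then 1 / (2 * Real.log H) else 0)| ≤
    (if h ≤ m ∧ m < h + U + 1 then (2 : ℝ) else 0) + (if h < m ∧ m < h + D then 1 / Real.log H else 0) +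
      B / Real.log H ^ 2 := by
  have hH3 : (3 : ℝ) ≤ (H : ℝ) := by exact_mod_cast hH
  have hHpos : (0 : ℝ) < (H : ℝ) := by linarith
  have hL1 : (1 : ℝ) ≤ Real.log H := by
    rw [Real.le_log_iff_exp_le hHpos]
    have := Real.exp_one_lt_d9
    linarith
  have hL0 : (0 : ℝ) < Real.log H := by linarith
  have hB0 : 0 ≤ B := le_trans (by positivity) hB
  have hBL : 0 ≤ B / Real.log H ^ 2 := by positivity
  have haR : (1 : ℝ) ≤ (a : ℝ) := by exact_mod_cast ha
  have hb1 := neg_abs_le (b : ℝ)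
  have hb2 := le_abs_self (b : ℝ)
  have hc1 := neg_abs_le (c : ℝ)
  have hc2 := le_abs_self (c : ℝ)
  have hb0 := abs_nonneg (b : ℝ)
  have hc0 := abs_nonneg (c : ℝ)
  have hm0 : (0 : ℝ) ≤ (m : ℝ) := by positivity
  have hh0 : (0 : ℝ) ≤ (h : ℝ) := by positivity
  have hhH : (h : ℝ) ≤ (H : ℝ) := by exact_mod_cast hh2
  have hmK : (m : ℝ) ≤ (K : ℝ) * (H : ℝ) := by exact_mod_cast hm
  have hV := Vg_fac a b c h m
  set V : ℤ := Vg a b 1 c h m with hVdef
  -- second bounds nonneg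
  have hi1 : (0 : ℝ) ≤ (if h ≤ m ∧ m < h + U + 1 then (2 : ℝ) else 0) := by split_ifs <;> norm_num
  have hi2 : (0 : ℝ) ≤ (if h < m ∧ m < h + D then 1 / Real.log H else 0) := by
    split_ifs
    · positivity
    · exact le_refl _
  have hlin : (m : ℝ) + h ≤ (a : ℝ) * ((m : ℝ) + h) := by nlinarith
  rcases lt_or_ge m h with hmh | hmh
  · -- m < h
    have hmh' : (m : ℝ) + 1 ≤ (h : ℝ) := by exact_mod_cast hmh
    have hq : |(c : ℝ)| + 1 ≤ (a : ℝ) * ((m : ℝ) + h) + b := by linarith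
    have hVneg : (V : ℝ) < 2 := by
      rw [hV]
      have : ((h : ℝ) - m) * ((a : ℝ) * ((m : ℝ) + h) + b) ≥ |(c : ℝ)| + 1 := by nlinarith
      nlinarith
    have hVneg' : ¬ (2 ≤ V) := by
      intro hcon
      have : (2 : ℝ) ≤ (V : ℝ) := by exact_mod_cast hcon
      linarith
    rw [if_neg hVneg', if_neg (not_lt.mpr hmh.le)]
    simp only [sub_zero, abs_zero]
    linarith
  · -- h ≤ m
    rcases lt_or_ge m (h + U + 1) with hmU | hmU
    · -- close
      rw [if_pos (show h ≤ m ∧ m < h + U + 1 from ⟨hmh, hmU⟩)]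
      have hw : 0 ≤ (if 2 ≤ V then 1 / Real.log (V : ℝ) else 0) ∧ (if 2 ≤ V then 1 / Real.log (V : ℝ) else 0) ≤ 2 := by
        split_ifs with h3
        · exact inv_log_le_two V h3
        · exact ⟨le_refl _, by norm_num⟩
      have ht : 0 ≤ (if h < m then 1 / (2 * Real.log H) else 0) ∧ (if h < m then 1 / (2 * Real.log H) else 0) ≤ 2 := by
        split_ifs with h3
        · refine ⟨by positivity, ?_⟩
          rw [div_le_iff₀ (by positivity)]
          nlinarith
        · exact ⟨le_refl _, by norm_num⟩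
      have : |(if 2 ≤ V then 1 / Real.log (V : ℝ) else 0) - (if h < m then 1 / (2 * Real.log H) else 0)| ≤ 2 := by
        rw [abs_le]
        constructor
        · linarith [hw.1, ht.2]
        · linarith [hw.2, ht.1]
      linarith
    · -- far
      have hmh1 : h < m := by omega
      have hu : (U : ℝ) + 1 ≤ (m : ℝ) - h := by
        have : ((h + U + 1 : ℕ) : ℝ) ≤ (m : ℝ) := by exact_mod_cast hmU
        push_cast at this
        linarith
      have hU0 : (0 : ℝ) ≤ (U : ℝ) := by positivity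
      have hu0 : (0 : ℝ) ≤ (m : ℝ) - h := by linarith
      have hq : δ * H ≤ (a : ℝ) * ((m : ℝ) + h) + b := by nlinarith
      have hVlow : ((m : ℝ) - h) * (δ * H) - |(c : ℝ)| ≤ (V : ℝ) := by
        rw [hV]
        have := mul_le_mul_of_nonneg_left hq hu0
        linarith
      have hVH : (H : ℝ) ≤ (V : ℝ) := by
        have e1 : (1 + |(c : ℝ)|) * H ≤ ((m : ℝ) - h) * (δ * H) := by
          have e2 : 1 + |(c : ℝ)| ≤ ((m : ℝ) - h) * δ := by nlinarith
          nlinarith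
        nlinarith
      have hV2 : 2 ≤ V := by
        have : (2 : ℝ) ≤ (V : ℝ) := by linarith
        exact_mod_cast this
      have hVpos : (0 : ℝ) < (V : ℝ) := by linarith
      have hlogV : Real.log H ≤ Real.log (V : ℝ) := Real.log_le_log hHpos hVH
      have hlogV0 : (0 : ℝ) < Real.log (V : ℝ) := by linarith
      rw [if_pos hV2, if_pos hmh1]
      rcases lt_or_ge m (h + D) with hmD | hmD
      · rw [if_pos (show h < m ∧ m < h + D from ⟨hmh1, hmD⟩)]
        have e1 : 1 / Real.log (V : ℝ) ≤ 1 / Real.log H := one_div_le_one_div_of_le hL0 hlogV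
        have e2 : 0 ≤ 1 / Real.log (V : ℝ) := by positivity
        have e3 : 1 / (2 * Real.log H) ≤ 1 / Real.log H := one_div_le_one_div_of_le hL0 (by linarith)
        have e4 : 0 ≤ 1 / (2 * Real.log H) := by positivity
        have : |1 / Real.log (V : ℝ) - 1 / (2 * Real.log H)| ≤ 1 / Real.log H := by
          rw [abs_le]
          constructor
          · linarith
          · linarith
        linarith
      · have hu2 : d * H ≤ (m : ℝ) - h := by
          have : ((h + D : ℕ) : ℝ) ≤ (m : ℝ) := by exact_mod_cast hmD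
          push_cast at this
          linarith
        have hlow : d * δ / 2 * (H : ℝ) ^ 2 ≤ (V : ℝ) := by
          have e1 : d * H * (δ * H) ≤ ((m : ℝ) - h) * (δ * H) := by
            apply mul_le_mul_of_nonneg_right hu2; positivity
          have e2 : d * H * (δ * H) = d * δ * (H : ℝ) ^ 2 := by ring
          nlinarith
        have hup : (V : ℝ) ≤ ((a : ℝ) * K ^ 2 + |(b : ℝ)| * K + |(b : ℝ)| + |(c : ℝ)| + 1) * (H : ℝ) ^ 2 := by
          rw [hV]
          have e0 : ((m : ℝ) - h) * ((a : ℝ) * ((m : ℝ) + h) + b) + c =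
            (a : ℝ) * (m : ℝ) ^ 2 + b * m - (a : ℝ) * (h : ℝ) ^ 2 - b * h + c := by ring
          rw [e0]
          have hHH : (H : ℝ) ≤ (H : ℝ) ^ 2 := by nlinarith
          have h1H : (1 : ℝ) ≤ (H : ℝ) ^ 2 := by nlinarith
          have e1 : (m : ℝ) ^ 2 ≤ (K : ℝ) ^ 2 * (H : ℝ) ^ 2 := by
            have := pow_le_pow_left₀ hm0 hmK 2
            calc (m : ℝ) ^ 2 ≤ ((K : ℝ) * H) ^ 2 := this
              _ = (K : ℝ) ^ 2 * (H : ℝ) ^ 2 := by ring
          have e2 : (a : ℝ) * (m : ℝ) ^ 2 ≤ (a : ℝ) * ((K : ℝ) ^ 2 * (H : ℝ) ^ 2) :=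
            mul_le_mul_of_nonneg_left e1 (by linarith)
          have hK0 : (0 : ℝ) ≤ (K : ℝ) := by positivity
          have e3 : (b : ℝ) * m ≤ |(b : ℝ)| * ((K : ℝ) * (H : ℝ) ^ 2) := by
            calc (b : ℝ) * m ≤ |(b : ℝ)| * m := mul_le_mul_of_nonneg_right hb2 hm0
              _ ≤ |(b : ℝ)| * ((K : ℝ) * H) := mul_le_mul_of_nonneg_left hmK hb0
              _ ≤ |(b : ℝ)| * ((K : ℝ) * (H : ℝ) ^ 2) := by
                apply mul_le_mul_of_nonneg_left _ hb0
                exact mul_le_mul_of_nonneg_left hHH hK0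
          have e4 : - ((b : ℝ) * h) ≤ |(b : ℝ)| * (H : ℝ) ^ 2 := by
            calc - ((b : ℝ) * h) = (- (b : ℝ)) * h := by ring
              _ ≤ |(b : ℝ)| * h := mul_le_mul_of_nonneg_right (by linarith) hh0
              _ ≤ |(b : ℝ)| * (H : ℝ) ^ 2 := mul_le_mul_of_nonneg_left (by linarith) hb0
          have e5 : (c : ℝ) ≤ |(c : ℝ)| * (H : ℝ) ^ 2 := by nlinarith
          have e6 : 0 ≤ (a : ℝ) * (h : ℝ) ^ 2 := by positivity
          nlinarith
        set C : ℝ := (a : ℝ) * K ^ 2 + |(b : ℝ)| * K + |(b : ℝ)| + |(c : ℝ)| + 1 with hC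
        have hC0 : 0 < C := by positivity
        have hdδ : 0 < d * δ / 2 := by positivity
        have hH2 : (0 : ℝ) < (H : ℝ) ^ 2 := by positivity
        have g1 : Real.log (V : ℝ) ≤ Real.log C + 2 * Real.log H := by
          calc Real.log (V : ℝ) ≤ Real.log (C * (H : ℝ) ^ 2) := Real.log_le_log hVpos hup
            _ = Real.log C + 2 * Real.log H := by
              rw [Real.log_mul hC0.ne' hH2.ne', Real.log_pow]; norm_num
        have g2 : Real.log (d * δ / 2) + 2 * Real.log H ≤ Real.log (V : ℝ) := by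
          calc Real.log (d * δ / 2) + 2 * Real.log H = Real.log (d * δ / 2 * (H : ℝ) ^ 2) := by
                rw [Real.log_mul hdδ.ne' hH2.ne', Real.log_pow]; norm_num
            _ ≤ Real.log (V : ℝ) := Real.log_le_log (by positivity) hlow
        have g3 : |2 * Real.log H - Real.log (V : ℝ)| ≤ B := by
          have k1 := le_abs_self (Real.log C)
          have k2 := neg_abs_le (Real.log (d * δ / 2))
          have k3 := abs_nonneg (Real.log C)
          have k4 := abs_nonneg (Real.log (d * δ / 2))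
          rw [abs_le]
          constructor
          · linarith
          · linarith
        have g4 : 1 / Real.log (V : ℝ) - 1 / (2 * Real.log H) =
            (2 * Real.log H - Real.log (V : ℝ)) / (Real.log (V : ℝ) * (2 * Real.log H)) := by
          field_simp
        have g5 : |1 / Real.log (V : ℝ) - 1 / (2 * Real.log H)| ≤ B / Real.log H ^ 2 := by
          rw [g4, abs_div, abs_of_pos (show 0 < Real.log (V : ℝ) * (2 * Real.log H) by positivity)]
          apply div_le_div₀ hB0 g3 (by positivity)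
          nlinarith
        linarith

theorem card1 (h U M : ℕ) : (((Icc 1 M).filter (fun m : ℕ => h ≤ m ∧ m < h + U + 1)).card : ℝ) ≤ U + 1 := by
  have : ((Icc 1 M).filter (fun m : ℕ => h ≤ m ∧ m < h + U + 1)) ⊆ Ico h (h + U + 1) := by
    intro x hx
    rw [mem_filter] at hx
    rw [mem_Ico]
    exact hx.2
  have h2 := card_le_card this
  rw [Nat.card_Ico] at h2
  have h3 : ((Icc 1 M).filter (fun m : ℕ => h ≤ m ∧ m < h + U + 1)).card ≤ U + 1 := by omega
  exact_mod_cast h3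

theorem card2 (h D M : ℕ) : (((Icc 1 M).filter (fun m : ℕ => h < m ∧ m < h + D)).card : ℝ) ≤ D := by
  have : ((Icc 1 M).filter (fun m : ℕ => h < m ∧ m < h + D)) ⊆ Ioo h (h + D) := by
    intro x hx
    rw [mem_filter] at hx
    rw [mem_Ioo]
    exact hx.2
  have h2 := card_le_card this
  rw [Nat.card_Ioo] at h2
  have h3 : ((Icc 1 M).filter (fun m : ℕ => h < m ∧ m < h + D)).card ≤ D := by omega
  exact_mod_cast h3

theorem card3 (h M : ℕ) : (((Icc 1 M).filter (fun m : ℕ => h < m)).card : ℝ) = max ((M : ℝ) - h) 0 := by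
  have : ((Icc 1 M).filter (fun m : ℕ => h < m)) = Ioc h M := by
    ext x
    simp only [mem_filter, mem_Icc, mem_Ioc]
    omega
  rw [this, Nat.card_Ioc]
  rcases le_total h M with hh | hh
  · rw [Nat.cast_sub hh, max_eq_left]
    have : (h : ℝ) ≤ (M : ℝ) := by exact_mod_cast hh
    linarith
  · rw [Nat.sub_eq_zero_of_le hh, max_eq_right]
    · norm_num
    · have : (M : ℝ) ≤ (h : ℝ) := by exact_mod_cast hh
      linarith

theorem t_LSUM (a b c : ℤ) (ha : 1 ≤ a) (δ : ℝ) (K : ℕ) (hδ : 0 < δ) : ∃ H0 : ℕ, ∀ H : ℕ, H0 ≤ H → ∀ h : ℕ,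
    δ * H ≤ h → h ≤ H → ∀ M : ℕ, M ≤ K * H →
    |∑ m ∈ (Icc 1 M).filter (fun m : ℕ => 2 ≤ Vg a b 1 c h m), 1 / Real.log ((Vg a b 1 c h m : ℤ) : ℝ) -
      max ((M : ℝ) - h) 0 / (2 * Real.log H)| ≤ δ * (H / Real.log H) := by
  obtain ⟨U, hU⟩ := exists_nat_ge ((1 + |(c : ℝ)|) / δ)
  have hU' : 1 + |(c : ℝ)| ≤ δ * U := by
    rw [div_le_iff₀ hδ] at hU
    linarith
  set d : ℝ := δ / 4 with hd
  have hd0 : 0 < d := by positivity
  set B : ℝ := |Real.log ((a : ℝ) * K ^ 2 + |(b : ℝ)| * K + |(b : ℝ)| + |(c : ℝ)| + 1)| +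
      |Real.log (d * δ / 2)| with hB
  have hB0 : 0 ≤ B := by positivity
  -- eventual conditions
  have ev1 : ∀ᶠ H : ℕ in Filter.atTop, |(b : ℝ)| + |(c : ℝ)| + 1 ≤ δ * H := by
    have : Filter.Tendsto (fun H : ℕ => δ * (H : ℝ)) Filter.atTop Filter.atTop :=
      Filter.Tendsto.const_mul_atTop hδ tendsto_natCast_atTop_atTop
    exact this.eventually_ge_atTop _
  have ev2 : ∀ᶠ H : ℕ in Filter.atTop, |(c : ℝ)| ≤ d * δ / 2 * (H : ℝ) ^ 2 := by
    have : Filter.Tendsto (fun H : ℕ => d * δ / 2 * (H : ℝ) ^ 2) Filter.atTop Filter.atTop :=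
      Filter.Tendsto.const_mul_atTop (by positivity)
        ((Filter.tendsto_pow_atTop (by norm_num)).comp tendsto_natCast_atTop_atTop)
    exact this.eventually_ge_atTop _
  have ev3 : ∀ᶠ H : ℕ in Filter.atTop, 4 * (K * B) / δ ≤ Real.log (H : ℝ) :=
    (Real.tendsto_log_atTop.comp tendsto_natCast_atTop_atTop).eventually_ge_atTop _
  have ev4 : ∀ᶠ H : ℕ in Filter.atTop, Real.log (H : ℝ) ≤ (δ / 4 / (2 * (U + 1) + 1)) * (H : ℝ) := by
    have h0 : (0 : ℝ) < δ / 4 / (2 * (U + 1) + 1) := by positivity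
    have := (Real.isLittleO_log_id_atTop.def h0)
    have h2 := tendsto_natCast_atTop_atTop.eventually this
    filter_upwards [h2] with H hH
    simp only [id, Real.norm_eq_abs] at hH
    have h3 : |(H : ℝ)| = (H : ℝ) := abs_of_nonneg (by positivity)
    rw [h3] at hH
    exact le_trans (le_abs_self _) hH
  obtain ⟨H0, hH0⟩ := Filter.eventually_atTop.mp (ev1.and (ev2.and (ev3.and (ev4.and (Filter.eventually_ge_atTop 3)))))
  refine ⟨H0, fun H hH h hh1 hh2 M hM => ?_⟩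
  obtain ⟨c1, c2, c3, c4, c5⟩ := hH0 H hH
  have hH3 : (3 : ℝ) ≤ (H : ℝ) := by exact_mod_cast c5
  have hHpos : (0 : ℝ) < (H : ℝ) := by linarith
  have hL1 : (1 : ℝ) ≤ Real.log H := by
    rw [Real.le_log_iff_exp_le hHpos]
    have := Real.exp_one_lt_d9
    linarith
  have hL0 : (0 : ℝ) < Real.log H := by linarith
  set D : ℕ := ⌈d * H⌉₊ with hD
  have hD1 : d * H ≤ D := Nat.le_ceil _
  have hD2 : (D : ℝ) ≤ d * H + 1 := (Nat.ceil_lt_add_one (by positivity)).le
  have hS : ∑ m ∈ (Icc 1 M).filter (fun m : ℕ => 2 ≤ Vg a b 1 c h m), 1 / Real.log ((Vg a b 1 c h m : ℤ) : ℝ) =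
      ∑ m ∈ Icc 1 M, (if 2 ≤ Vg a b 1 c h m then 1 / Real.log ((Vg a b 1 c h m : ℤ) : ℝ) else 0) := sum_filter _ _
  have hT : max ((M : ℝ) - h) 0 / (2 * Real.log H) =
      ∑ m ∈ Icc 1 M, (if h < m then 1 / (2 * Real.log H) else 0) := by
    rw [← sum_filter, sum_const, nsmul_eq_mul, card3]
    ring
  rw [hS, hT, ← sum_sub_distrib]
  have key : |∑ m ∈ Icc 1 M, ((if 2 ≤ Vg a b 1 c h m then 1 / Real.log ((Vg a b 1 c h m : ℤ) : ℝ) else 0) -
      (if h < m then 1 / (2 * Real.log H) else 0))| ≤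
      ∑ m ∈ Icc 1 M, ((if h ≤ m ∧ m < h + U + 1 then (2 : ℝ) else 0) +
        (if h < m ∧ m < h + D then 1 / Real.log H else 0) + B / Real.log H ^ 2) := by
    refine le_trans (abs_sum_le_sum_abs _ _) (sum_le_sum ?_)
    intro m hm
    rw [mem_Icc] at hm
    exact pt a b c ha δ d B hδ hd0 K U D H h m c5 c1 c2 hU' hD1 hh1 hh2 (le_trans hm.2 hM) (le_of_eq hB.symm)
  refine le_trans key ?_
  rw [sum_add_distrib, sum_add_distrib, ← sum_filter, ← sum_filter, sum_const, sum_const, sum_const,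
    nsmul_eq_mul, nsmul_eq_mul, nsmul_eq_mul, Nat.card_Icc]
  have k1 := card1 h U M
  have k2 := card2 h D M
  have k3 : ((M + 1 - 1 : ℕ) : ℝ) ≤ K * H := by
    have : M + 1 - 1 = M := by omega
    rw [this]; exact_mod_cast hM
  have hHL : (0 : ℝ) < (H : ℝ) / Real.log H := by positivity
  -- term 1 + the extra one
  have t1 : (2 * ((U : ℝ) + 1) + 1) ≤ δ / 4 * (H / Real.log H) := by
    rw [← mul_div_assoc, le_div_iff₀ hL0]
    have h0 : (0 : ℝ) < 2 * ((U : ℝ) + 1) + 1 := by positivity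
    have := mul_le_mul_of_nonneg_left c4 h0.le
    calc (2 * ((U : ℝ) + 1) + 1) * Real.log H ≤
        (2 * ((U : ℝ) + 1) + 1) * ((δ / 4 / (2 * (U + 1) + 1)) * (H : ℝ)) := this
      _ = δ / 4 * H := by field_simp
  have t2 : (((Icc 1 M).filter (fun m : ℕ => h < m ∧ m < h + D)).card : ℝ) * (1 / Real.log H) ≤
      δ / 4 * (H / Real.log H) + 1 := by
    have e1 : (((Icc 1 M).filter (fun m : ℕ => h < m ∧ m < h + D)).card : ℝ) * (1 / Real.log H) ≤
        (d * H + 1) * (1 / Real.log H) :=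
      mul_le_mul_of_nonneg_right (le_trans k2 hD2) (by positivity)
    have e2 : 1 / Real.log H ≤ 1 := by
      rw [div_le_iff₀ hL0]; linarith
    have e3 : (d * H + 1) * (1 / Real.log H) = δ / 4 * (H / Real.log H) + 1 / Real.log H := by
      rw [hd]; ring
    linarith
  have t3 : ((M + 1 - 1 : ℕ) : ℝ) * (B / Real.log H ^ 2) ≤ δ / 4 * (H / Real.log H) := by
    have e1 : ((M + 1 - 1 : ℕ) : ℝ) * (B / Real.log H ^ 2) ≤ (K * H) * (B / Real.log H ^ 2) :=
      mul_le_mul_of_nonneg_right k3 (by positivity)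
    have e2 : 4 * (K * B) ≤ Real.log H * δ := by
      rwa [div_le_iff₀ hδ] at c3
    have e3 : ((K : ℝ) * H) * (B / Real.log H ^ 2) = (K * B) * H / Real.log H ^ 2 := by ring
    have e4 : ((K : ℝ) * B) * H / Real.log H ^ 2 ≤ δ / 4 * (H / Real.log H) := by
      rw [div_le_iff₀ (by positivity)]
      have : δ / 4 * ((H : ℝ) / Real.log H) * Real.log H ^ 2 = δ / 4 * H * Real.log H := by
        field_simp
      rw [this]
      nlinarith
    linarith
  have t4 : (((Icc 1 M).filter (fun m : ℕ => h ≤ m ∧ m < h + U + 1)).card : ℝ) * 2 ≤ 2 * ((U : ℝ) + 1) := by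
    linarith
  have t5 : 0 ≤ δ / 4 * ((H : ℝ) / Real.log H) := by positivity
  linarith

end

end Pool.Agent.N67.QV
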